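import Mathlib
import Pool.Agent.NH28.UR.Asm
import Pool.Agent.NH28.UR.Interp
import Pool.Agent.NH28.UR.Bad
import Pool.Agent.NH28.UR.Phi
import Pool.Agent.NH28.UR.Liuk
import Pool.Agent.NH28.UR.Liu
import Pool.Agent.NH28.UR.Gm
import Pool.Agent.NH28.UR.Gdbd
import Pool.Agent.NH28.UR.Gauss
import Pool.Agent.NH28.UR.B0
import Pool.Agent.NH28.UR.B1A
import Pool.Agent.NH28.UR.B1
import Pool.Agent.NH28.UR.Na
import Pool.Agent.NH28.UR.Nb
import Pool.Agent.NH28.UR.Vx
import Pool.Agent.NH28.UR.Dc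
import Pool.Agent.NH28.UR.Red
import Pool.Agent.NH28.UR.C2
import Pool.Agent.NH28.UR.Gen3
import Pool.Agent.NH28.UR.Arc
import Pool.Agent.NH28.UR.Cone
import Pool.Agent.NH28.UR.Cnt6
import Pool.Agent.NH28.UR.Cnt5
import Pool.Agent.NH28.UR.Cnt4
import Pool.Agent.NH28.UR.Conic
import Pool.Agent.NH28.UR.Trans
import Pool.Agent.NH28.UR.Sym12
import Pool.Agent.NH28.UR.Sym3
import Pool.Agent.NH28.UR.Bin
import Pool.Agent.NH28.UR.Sym45
import Pool.Agent.NH28.UR.Cntp
import Pool.Agent.NH28.UR.Res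
import Pool.Agent.NH28.UR.Om
import Pool.Agent.NH28.UR.Sumq
import Pool.Agent.NH28.UR.Sumc
import Pool.Agent.NH28.UR.Sing
import Pool.Agent.NH28.UR.ConS
import Pool.Agent.NH28.UR.Polyn
import Pool.Agent.NH28.UR.Rnum

set_option autoImplicit false

/-!
# Unital subring counts of `ℤⁿ` are not polynomial in `p` (MP_e07280_nt, Q1, negated form)

`f_n(k)` = number of subrings of `ℤⁿ` (with the componentwise operations) of index `k` that contain
`1 = (1, …, 1)`; a `Subring (Fin n → ℤ)` of Mathlib contains `1` by definition.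

We prove that for infinitely many `n` there is an `e ≥ 1` such that no rational function over `ℚ`
agrees with `p ↦ f_n(p^e)` at all primes `p ≥ 5`; in particular no polynomial over `ℚ` agrees with
`p ↦ f_n(p^e)` at all primes `p`.

Outline: if all `f_n(p^e)` were rational functions of `p`, then so would be (by interpolation in `n`)
the number of `10`-tuples of points of the affine plane over `F_p` which lie on no cubic curve, hence
so would be the sum over all plane cubics `C` over `F_p` of the falling factorial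
`(#C(F_p))_{10}`, hence the sum over all Weierstrass equations `y² = x³ + A x + B` of a certain
polynomial of degree `10` in the number of points; by the Eichler-Selberg trace formula the latter
involves the weight `12` cusp form `Δ`, and a finite computation at `16` primes together with an
elementary growth bound shows that it is no rational function of `p`.
-/

open Pool.Agent.NH28.UR

namespace Pool.Agent.Results.MP_e07280_nt.NotPolynomial

/-- For every `n₀` there are `n ≥ n₀` and `e ≥ 1` such that no rational function over `ℚ` agrees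
with `p ↦ f_n(p^e)` at all primes `p ≥ 5`. For `n₀ = 5` and `B = 1` this is the negated form of the
question: no polynomial over `ℚ` agrees with `p ↦ f_n(p^e)` at every prime. -/
theorem result (n₀ : ℕ) :
    ∃ n : ℕ, n₀ ≤ n ∧ ∃ e : ℕ, 1 ≤ e ∧ ¬ ∃ A B : Polynomial ℚ,
      ∀ p : ℕ, p.Prime → 5 ≤ p → B.eval (p : ℚ) ≠ 0 ∧
        (Nat.card {Λ : Subring (Fin n → ℤ) // Λ.toAddSubgroup.index = p ^ e} : ℚ)
          = A.eval (p : ℚ) / B.eval (p : ℚ) := by
  have hLiu : S_LIU := Liu.liu Bad.fin Liuk.liuk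
  have hB0 : S_B0 := B0.b0 Gauss.gaussThm
  have hB1 : S_B1 := B1.b1 Bad.fin B0.kap (B1A.b1a Gauss.gaussThm)
  have hN : S_N := Nb.nThm Na.na
  have hRed : S_RED := Red.red
  have hC2 : S_C2 := C2.c2Thm hRed Red.w1Thm
  have hArc : S_ARC := Arc.arc hC2
  have hCone : S_CONE := Cone.cone hRed Red.w1Thm hC2 Gen3.gen3 hArc
  have hT : S_TRANS := Pool.Agent.NH28.UR.Trans.trans
  obtain ⟨n, hn, e, he, h⟩ :=
    Asm.main Interp.interp Bad.bad (Phi.phiThm Bad.fin) hLiu Gm.gm (Gdbd.gd Bad.fin)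
      (Gdbd.bd Bad.fin) hB0 hB1 hN Vx.vThm Dc.dc (Cnt6.cnt6 hRed hC2) (Cnt5.cnt5 hRed hC2)
      (Cnt4.cnt4 hRed hC2 hCone Conic.conic) Bin.bin Cntp.aff (Sym12.sym1 hT) (Sym12.sym2 hT)
      (Sym3.sym3 hT) (Sym45.sym4 hT) (Sym45.sym5 hT) Con.con
      (Sumq.sumq Cntp.cnt Res.res Om.shift) (Sumc.sumc Cntp.cnt) (Sumc.sum0 Cntp.cnt) Sing.sing
      Om.om (Rnum.rThm Polyn.polyn) n₀
  refine ⟨n, hn, e, he, ?_⟩
  rintro ⟨A, B, hAB⟩
  exact h ⟨A, B, fun p hp h5 => hAB p hp.out h5⟩

end Pool.Agent.Results.MP_e07280_nt.NotPolynomial
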